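import Pool.Agent.ChT.Slow

/-!
# The lemma of Shapiro for subgroups, as an inequality
-/

namespace Pool.Agent.ChU

open Module
open Pool.Agent.ChT (HomF ZQ ZQ_finite two_step finrank_funQ card_quot homF_fg homF_one fg_inf)

variable {G : Type*} [Group G] {Q : Type*} [Group Q] {F : Type*} [Field F] {π : G →* Q}

/-- The orbits of the image of `A` in `Q`. -/
abbrev Orb (π : G →* Q) (A : Subgroup G) : Type _ :=
  Quotient (QuotientGroup.rightRel (A.map π))

/-- the orbit of `x` -/
def cl (π : G →* Q) (A : Subgroup G) (x : Q) : Orb π A :=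
  Quotient.mk (QuotientGroup.rightRel (A.map π)) x

theorem cl_mul {A : Subgroup G} {a : G} (ha : a ∈ A) (x : Q) :
    cl π A (π a * x) = cl π A x := by
  apply Quotient.sound
  change (QuotientGroup.rightRel (A.map π)).r _ _
  rw [QuotientGroup.rightRel_apply]
  have h6 : x * (π a * x)⁻¹ = π a⁻¹ := by
    rw [mul_inv_rev, map_inv]
    group
  rw [h6]
  exact Subgroup.mem_map_of_mem π (A.inv_mem ha)

theorem exists_beta (π : G →* Q) (A : Subgroup G) :
    ∃ β : Q → G, (∀ x, β x ∈ A) ∧ (∀ x, π (β x) * (cl π A x).out = x) ∧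
      ∀ j : Orb π A, β j.out = 1 := by
  classical
  have h1 : ∀ y : Q, ∃ a ∈ A, π a * (cl π A y).out = y := by
    intro y
    have h3 : (QuotientGroup.rightRel (A.map π)).r (Quotient.out (cl π A y)) y :=
      Quotient.mk_out (s := QuotientGroup.rightRel (A.map π)) y
    rw [QuotientGroup.rightRel_apply] at h3
    obtain ⟨a, ha, hay⟩ := h3
    exact ⟨a, ha, by rw [hay, inv_mul_cancel_right]⟩
  choose β hβ hβ' using h1
  refine ⟨fun x => if x = (cl π A x).out then 1 else β x, fun x => ?_, fun x => ?_,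
    fun j => ?_⟩
  · dsimp only
    split_ifs
    · exact A.one_mem
    · exact hβ x
  · dsimp only
    split_ifs with h
    · rw [map_one, one_mul]
      exact h.symm
    · exact hβ' x
  · dsimp only
    have h2 : cl π A j.out = j := Quotient.out_eq j
    rw [h2, if_pos rfl]

/-- a factor of `a` in the kernel of `π` -/
def kap (A : Subgroup G) (β : Q → G) (hβ : ∀ x, β x ∈ A)
    (hβ' : ∀ x, π (β x) * (cl π A x).out = x) (a : A) (x : Q) : (π.ker ⊓ A : Subgroup G) :=
  ⟨(β (π a * x))⁻¹ * a * β x, by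
    constructor
    · have h1 := hβ' (π a * x)
      rw [cl_mul a.2] at h1
      have h2 : π (β (π a * x)) = π a * x * ((cl π A x).out)⁻¹ := by
        rw [eq_mul_inv_iff_mul_eq]
        exact h1
      have h3 : π (β x) = x * ((cl π A x).out)⁻¹ := by
        rw [eq_mul_inv_iff_mul_eq]
        exact hβ' x
      change (β (π a * x))⁻¹ * a * β x ∈ π.ker
      rw [MonoidHom.mem_ker, map_mul, map_mul, map_inv, h2, h3]
      group
    · exact A.mul_mem (A.mul_mem (A.inv_mem (hβ _)) a.2) (hβ _)⟩

theorem kap_mul (A : Subgroup G) (β : Q → G) (hβ : ∀ x, β x ∈ A)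
    (hβ' : ∀ x, π (β x) * (cl π A x).out = x) (a b : A) (x : Q) :
    kap A β hβ hβ' (a * b) x = kap A β hβ hβ' a (π b * x) * kap A β hβ hβ' b x := by
  ext
  simp only [kap, Subgroup.coe_mul, map_mul, mul_assoc]
  group

/-- The crossed homomorphism which belongs to `φ` and `f`. -/
def shapS (A : Subgroup G) (β : Q → G) (hβ : ∀ x, β x ∈ A)
    (hβ' : ∀ x, π (β x) * (cl π A x).out = x) :
    ((Orb π A → HomF F (π.ker ⊓ A : Subgroup G)) × (Q → F)) →ₗ[F] ZQ F π A where
  toFun u := ⟨fun a x => (u.1 (cl π A x)).1 (kap A β hβ hβ' a x) + (u.2 (π a * x) - u.2 x), by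
    intro a b x
    dsimp only
    rw [kap_mul, (u.1 (cl π A x)).2, cl_mul b.2]
    simp only [Subgroup.coe_mul, map_mul, mul_assoc]
    ring⟩
  map_add' := by
    intro u v
    ext a x
    simp only [Prod.fst_add, Prod.snd_add, Submodule.coe_add, Pi.add_apply]
    ring
  map_smul' := by
    intro r u
    ext a x
    simp only [Prod.smul_fst, Prod.smul_snd, SetLike.val_smul, Pi.smul_apply, smul_eq_mul,
      RingHom.id_apply]
    ring

theorem shapS_apply (A : Subgroup G) (β : Q → G) (hβ : ∀ x, β x ∈ A)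
    (hβ' : ∀ x, π (β x) * (cl π A x).out = x)
    (u : (Orb π A → HomF F (π.ker ⊓ A : Subgroup G)) × (Q → F)) (a : A) (x : Q) :
    (shapS A β hβ hβ' u).1 a x =
      (u.1 (cl π A x)).1 (kap A β hβ hβ' a x) + (u.2 (π a * x) - u.2 x) := rfl

theorem shapS_inj (A : Subgroup G) (β : Q → G) (hβ : ∀ x, β x ∈ A)
    (hβ' : ∀ x, π (β x) * (cl π A x).out = x) (hβ1 : ∀ j : Orb π A, β j.out = 1)
    (u : (Orb π A → HomF F (π.ker ⊓ A : Subgroup G)) × (Q → F))
    (h : shapS A β hβ hβ' u = 0) (h1 : ∀ j : Orb π A, u.2 j.out = 0) : u = 0 := by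
  have h2 : ∀ (a : A) (x : Q),
      (u.1 (cl π A x)).1 (kap A β hβ hβ' a x) + (u.2 (π a * x) - u.2 x) = 0 := by
    intro a x
    exact congrFun (congrFun (congrArg Subtype.val h) a) x
  have h0 : ∀ j : Orb π A, cl π A j.out = j := fun j => Quotient.out_eq j
  have h4 : u.1 = 0 := by
    funext j
    apply Subtype.ext
    funext g
    have h5 := h2 ⟨g, g.2.2⟩ j.out
    have h6 : π (g : G) = 1 := g.2.1
    have h7 : kap A β hβ hβ' ⟨g, g.2.2⟩ j.out = g := by
      ext
      simp [kap, h6, hβ1]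
    rw [h7, h0] at h5
    dsimp only at h5
    rw [h6, one_mul, sub_self, add_zero] at h5
    exact h5
  have h5 : u.2 = 0 := by
    funext x
    have h6 := h2 ⟨β x, hβ x⟩ (cl π A x).out
    rw [h4, h1, sub_zero] at h6
    dsimp only at h6
    rw [hβ' x] at h6
    simpa using h6
  exact Prod.ext h4 h5

/-- the lemma of Shapiro for subgroups, as an inequality -/
theorem shapiro_sub [Finite Q] {A : Subgroup G} (hA : A.FG) :
    (A.map π).index * finrank F (HomF F (π.ker ⊓ A : Subgroup G)) + Nat.card Q ≤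
      finrank F (ZQ F π A) + (A.map π).index := by
  classical
  have hker : π.ker.FiniteIndex := Subgroup.finiteIndex_ker π
  have hfg : Group.FG (π.ker ⊓ A : Subgroup G) :=
    (Group.fg_iff_subgroup_fg _).mpr (fg_inf hA hker)
  have hHf : Module.Finite F (HomF F (π.ker ⊓ A : Subgroup G)) := homF_fg hfg
  have hf : Module.Finite F (ZQ F π A) := ZQ_finite F π hA
  have hfA : Finite (Orb π A) := Quotient.finite _
  have hfin := Fintype.ofFinite (Orb π A)
  obtain ⟨β, hβ, hβ', hβ1⟩ := exists_beta π A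
  have h1 := two_step (shapS (F := F) A β hβ hβ')
    ((LinearMap.funLeft F F (fun j : Orb π A => j.out)).comp
      (LinearMap.snd F (Orb π A → HomF F (π.ker ⊓ A : Subgroup G)) (Q → F)))
    (⊤ : Submodule F (Orb π A → F)) (fun v _ => Submodule.mem_top)
    (fun v hv hv' => shapS_inj A β hβ hβ' hβ1 v hv fun j => congrFun hv' j)
  rw [Module.finrank_prod, finrank_funQ, finrank_top, Module.finrank_pi_fintype,
    Module.finrank_fintype_fun_eq_card, Finset.sum_const, Finset.card_univ, smul_eq_mul,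
    ← Nat.card_eq_fintype_card, card_quot] at h1
  exact h1

end Pool.Agent.ChU
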