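import Pool.Agent.ChU.ModP
import Pool.Agent.ChU.Shap
import Pool.Agent.ChT.Grad

/-!
# Soft subgroups are slow

Examples of slow subgroups: the class of the soft subgroups of `Pool/Agent/ChT/Defs.lean`, which
contains the cyclic subgroups and is closed under several operations (`soft_slow`).
-/

namespace Pool.Agent.ChU

open Module
open Pool.Agent.ChT (HomF ZQ ZQ_finite ZQ_eq_zero finrank_funQ ZQ_cyclic ZQ_le_hom ZQ_normal ZQ_step ZQ_join homF_fg
  fg_inf Deep Soft Thin finiteIndex_ker card_map card_mul_idx relIndex_image exists_stable)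

universe u

variable {G : Type u} [Group G]

theorem soft_thin {d : ℕ} {A : Subgroup G} (h : Soft d A) : Thin ℚ d A := by
  induction h with
  | cyclic g =>
    intro k
    refine ⟨⊤, inferInstance, fun Q _ _ π _ => ?_⟩
    have h1 := ZQ_cyclic (F := ℚ) (π := π) g
    calc k * finrank ℚ (ZQ ℚ π (Subgroup.zpowers g)) ≤ k * Nat.card Q :=
          Nat.mul_le_mul_left _ h1
      _ ≤ (k * (0 + 1) + 1) * Nat.card Q := Nat.mul_le_mul_right _ (by omega)
  | slow d A hA hs =>
    intro k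
    obtain ⟨H₀, hH₀, h1⟩ := hs 3 Nat.prime_three k
    refine ⟨H₀, hH₀, fun Q _ _ π hπ => ?_⟩
    have h2' := h1 π.ker hπ inferInstance (finiteIndex_ker π)
    have hfg : Group.FG (π.ker ⊓ A : Subgroup G) :=
      (Group.fg_iff_subgroup_fg _).mpr (fg_inf hA (finiteIndex_ker π))
    have h3p : Fact (Nat.Prime 3) := ⟨Nat.prime_three⟩
    have h0 : finrank ℚ (HomF ℚ (π.ker ⊓ A : Subgroup G)) ≤
        finrank (ZMod 3) (HomF (ZMod 3) (π.ker ⊓ A : Subgroup G)) :=
      homQ_le_homP hfg 3 (by norm_num)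
    have h2 := (Nat.mul_le_mul_left k h0).trans h2'
    rw [← card_map] at h2
    have h3 := ZQ_le_hom (F := ℚ) (π := π) hA
    have h4 := card_mul_idx π A
    calc k * finrank ℚ (ZQ ℚ π A)
        ≤ k * (Nat.card Q + (A.map π).index *
            finrank ℚ (HomF ℚ (π.ker ⊓ A : Subgroup G))) :=
          Nat.mul_le_mul_left _ h3
      _ = k * Nat.card Q + (A.map π).index *
            (k * finrank ℚ (HomF ℚ (π.ker ⊓ A : Subgroup G))) := by ring
      _ ≤ k * Nat.card Q + (A.map π).index * ((k * d + 1) * Nat.card (A.map π)) :=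
          Nat.add_le_add_left (Nat.mul_le_mul_left _ h2) _
      _ = k * Nat.card Q + (k * d + 1) * (Nat.card (A.map π) * (A.map π).index) := by ring
      _ = (k * (d + 1) + 1) * Nat.card Q := by
          rw [h4]
          ring
  | normal A N hNA hn hA hN hd hq =>
    intro k
    obtain ⟨SA, hSA⟩ := hA
    obtain ⟨SN, hSN⟩ := hN
    obtain ⟨H₁, hH₁, h1⟩ := hd.index_le (2 * k * SA.card)
    obtain ⟨H₂, hH₂, h2⟩ := hq (2 * k * SN.card)
    have hf : (H₁ ⊓ H₂).FiniteIndex := inferInstance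
    refine ⟨H₁ ⊓ H₂, hf, fun Q _ _ π hπ => ?_⟩
    have h3 := h1 Q π (hπ.trans inf_le_left)
    have h4 := h2.trans (relIndex_image π hNA (hπ.trans inf_le_right))
    have h5 := ZQ_normal (F := ℚ) (π := π) hNA hn SA SN hSA hSN
    have h6 : Nat.card (N.map π) * (N.map π).relIndex (A.map π) = Nat.card (A.map π) := by
      rw [← Subgroup.relIndex_bot_left, ← Subgroup.relIndex_bot_left (H := A.map π)]
      exact Subgroup.relIndex_mul_relIndex _ _ _ bot_le (Subgroup.map_mono hNA)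
    have h7 := card_mul_idx π A
    have h8 : 2 * k * SN.card * (Nat.card (N.map π) * (A.map π).index) ≤ Nat.card Q := by
      rw [← h7, ← h6]
      calc 2 * k * SN.card * (Nat.card (N.map π) * (A.map π).index)
          ≤ (N.map π).relIndex (A.map π) * (Nat.card (N.map π) * (A.map π).index) :=
            Nat.mul_le_mul_right _ h4
        _ = Nat.card (N.map π) * (N.map π).relIndex (A.map π) * (A.map π).index := by ring
    have h9 : 2 * k * finrank ℚ (ZQ ℚ π A) ≤
        2 * k * (SN.card * (Nat.card (N.map π) *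
        (A.map π).index) + (Nat.card Q + SA.card * (N.map π).index)) := Nat.mul_le_mul_left _ h5
    have h10 : 2 * k * (SN.card * (Nat.card (N.map π) * (A.map π).index) +
        (Nat.card Q + SA.card * (N.map π).index)) =
        2 * k * SN.card * (Nat.card (N.map π) * (A.map π).index) + 2 * k * Nat.card Q +
        2 * k * SA.card * (N.map π).index := by ring
    have h11 : 2 * (k * finrank ℚ (ZQ ℚ π A)) ≤
        2 * ((k * (0 + 1) + 1) * Nat.card Q) := by
      calc 2 * (k * finrank ℚ (ZQ ℚ π A)) =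
            2 * k * finrank ℚ (ZQ ℚ π A) := by ring
        _ ≤ 2 * k * SN.card * (Nat.card (N.map π) * (A.map π).index) + 2 * k * Nat.card Q +
            2 * k * SA.card * (N.map π).index := by rw [← h10]; exact h9
        _ ≤ Nat.card Q + 2 * k * Nat.card Q + Nat.card Q :=
            Nat.add_le_add (Nat.add_le_add_right h8 _) h3
        _ = 2 * ((k * (0 + 1) + 1) * Nat.card Q) := by ring
    exact Nat.le_of_mul_le_mul_left h11 (by norm_num)
  | step d A C g hCA hC hg hA ih =>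
    intro k
    obtain ⟨H₁, hH₁, h1⟩ := ih (2 * k)
    obtain ⟨H₂, hH₂, h2⟩ := hC.index_le (2 * k)
    have hf : (H₁ ⊓ H₂).FiniteIndex := inferInstance
    refine ⟨H₁ ⊓ H₂, hf, fun Q _ _ π hπ => ?_⟩
    have h3 := h1 Q π (hπ.trans inf_le_left)
    have h4 := h2 Q π (hπ.trans inf_le_right)
    have h5 := ZQ_step (F := ℚ) (π := π) g hA.fg hCA hg
    have h6 : 2 * (k * finrank ℚ (ZQ ℚ π (A ⊔ Subgroup.zpowers g))) ≤
        2 * ((k * (d + 1) + 1) * Nat.card Q) := by
      calc 2 * (k * finrank ℚ (ZQ ℚ π (A ⊔ Subgroup.zpowers g)))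
          = 2 * k * finrank ℚ (ZQ ℚ π (A ⊔ Subgroup.zpowers g)) := by ring
        _ ≤ 2 * k * (finrank ℚ (ZQ ℚ π A) + (C.map π).index) :=
            Nat.mul_le_mul_left _ h5
        _ = 2 * k * finrank ℚ (ZQ ℚ π A) + 2 * k * (C.map π).index := by ring
        _ ≤ (2 * k * (d + 1) + 1) * Nat.card Q + Nat.card Q := Nat.add_le_add h3 h4
        _ = 2 * ((k * (d + 1) + 1) * Nat.card Q) := by ring
    exact Nat.le_of_mul_le_mul_left h6 (by norm_num)
  | join a b A B C hCA hCB hC hA hB ihA ihB =>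
    intro k
    obtain ⟨H₁, hH₁, h1⟩ := ihA (3 * k)
    obtain ⟨H₂, hH₂, h2⟩ := ihB (3 * k)
    obtain ⟨H₃, hH₃, h3⟩ := hC.index_le (3 * k)
    have hf : (H₁ ⊓ H₂ ⊓ H₃).FiniteIndex := inferInstance
    refine ⟨H₁ ⊓ H₂ ⊓ H₃, hf, fun Q _ _ π hπ => ?_⟩
    have h4 := h1 Q π (hπ.trans (inf_le_left.trans inf_le_left))
    have h5 := h2 Q π (hπ.trans (inf_le_left.trans inf_le_right))
    have h6 := h3 Q π (hπ.trans inf_le_right)
    have h7 := ZQ_join (F := ℚ) (π := π) hA.fg hB.fg hCA hCB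
    have h8 := Nat.mul_le_mul_left (3 * k) h7
    have h9 : 3 * k * (finrank ℚ (ZQ ℚ π A) + finrank ℚ (ZQ ℚ π B) +
        (C.map π).index) = 3 * k * finrank ℚ (ZQ ℚ π A) +
        3 * k * finrank ℚ (ZQ ℚ π B) + 3 * k * (C.map π).index := by ring
    have h10 : 3 * k * (finrank ℚ (ZQ ℚ π (A ⊔ B)) + Nat.card Q) =
        3 * (k * finrank ℚ (ZQ ℚ π (A ⊔ B))) + 3 * (k * Nat.card Q) := by ring
    have h11 : (3 * k * (a + 1) + 1) * Nat.card Q + (3 * k * (b + 1) + 1) * Nat.card Q +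
        Nat.card Q = 3 * ((k * (a + b + 1) + 1) * Nat.card Q) + 3 * (k * Nat.card Q) := by ring
    rw [h9, h10] at h8
    omega
  | free a b A B hA hB ihA ihB =>
    intro k
    obtain ⟨H₁, hH₁, h1⟩ := ihA (2 * k)
    obtain ⟨H₂, hH₂, h2⟩ := ihB (2 * k)
    have hf : (H₁ ⊓ H₂).FiniteIndex := inferInstance
    refine ⟨H₁ ⊓ H₂, hf, fun Q _ _ π hπ => ?_⟩
    have h4 := h1 Q π (hπ.trans inf_le_left)
    have h5 := h2 Q π (hπ.trans inf_le_right)
    have h7 := ZQ_join (F := ℚ) (π := π) (C := ⊥) hA.fg hB.fg bot_le bot_le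
    rw [Subgroup.map_bot, Subgroup.index_bot] at h7
    have h8 : finrank ℚ (ZQ ℚ π (A ⊔ B)) ≤
        finrank ℚ (ZQ ℚ π A) + finrank ℚ (ZQ ℚ π B) := by omega
    have h9 := Nat.mul_le_mul_left (2 * k) h8
    have h10 : 2 * k * finrank ℚ (ZQ ℚ π (A ⊔ B)) =
        2 * (k * finrank ℚ (ZQ ℚ π (A ⊔ B))) := by ring
    rw [Nat.mul_add, h10] at h9
    have h11 : (2 * k * (a + 1) + 1) * Nat.card Q + (2 * k * (b + 1) + 1) * Nat.card Q =
        2 * ((k * (a + b + 1 + 1) + 1) * Nat.card Q) := by ring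
    omega


/-- finitely generated subgroups of `ℚ`: the values of a homomorphism have a common denominator -/
theorem homQ_denom {H : Type*} [Group H] (hH : Group.FG H) {f : H → ℚ} (hf : f ∈ HomQ H) :
    ∃ n : ℕ, 0 < n ∧ ∀ h, ∃ z : ℤ, (n : ℚ) * f h = z := by
  classical
  obtain ⟨S, hS⟩ := Group.fg_def.mp hH
  refine ⟨∏ s ∈ S, (f s).den, Finset.prod_pos fun s _ => (f s).pos, fun h => ?_⟩
  have hh : h ∈ Subgroup.closure (S : Set H) := by rw [hS]; exact Subgroup.mem_top h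
  induction hh using Subgroup.closure_induction with
  | mem s hs =>
    obtain ⟨m, hm⟩ := Finset.dvd_prod_of_mem (fun s => (f s).den) (Finset.mem_coe.mp hs)
    refine ⟨m * (f s).num, ?_⟩
    rw [hm]
    push_cast
    have h1 : ((f s).den : ℚ) * f s = (f s).num := by
      rw [mul_comm]
      exact Rat.mul_den_eq_num _
    rw [← h1]
    ring
  | one => exact ⟨0, by rw [homQ_one hf]; simp⟩
  | mul a b _ _ iha ihb =>
    obtain ⟨x, hx⟩ := iha
    obtain ⟨y, hy⟩ := ihb
    exact ⟨x + y, by rw [hf a b, mul_add, hx, hy]; push_cast; ring⟩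
  | inv a _ iha =>
    obtain ⟨x, hx⟩ := iha
    exact ⟨-x, by rw [homQ_inv hf, mul_neg, hx]; push_cast; ring⟩

/-- homomorphisms into `ℚ` vanish on the elements which lie in all subgroups of finite index -/
theorem homQ_residual {H : Type*} [Group H] (hH : Group.FG H) {f : H → ℚ} (hf : f ∈ HomQ H)
    (x : H) (hx : ∀ L : Subgroup H, L.FiniteIndex → x ∈ L) : f x = 0 := by
  obtain ⟨n, hn, hz⟩ := homQ_denom hH hf
  choose z hz using hz
  have hadd : ∀ a b, z (a * b) = z a + z b := by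
    intro a b
    have h1 : ((z (a * b) : ℤ) : ℚ) = ((z a + z b : ℤ) : ℚ) := by
      rw [← hz, hf, mul_add, hz, hz]
      push_cast
      ring
    exact_mod_cast h1
  have hzx : z x = 0 := by
    by_contra hne
    obtain ⟨m, hm⟩ : ∃ m, m = (z x).natAbs + 1 := ⟨_, rfl⟩
    have hm0 : NeZero m := ⟨by omega⟩
    let χ : H →* Multiplicative (ZMod m) :=
      MonoidHom.mk' (fun h => Multiplicative.ofAdd ((z h : ℤ) : ZMod m)) (fun a b => by
        rw [hadd a b]
        push_cast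
        rfl)
    have hfin : Finite (Multiplicative (ZMod m)) := inferInstanceAs (Finite (ZMod m))
    have h1 : χ.ker.FiniteIndex := Subgroup.finiteIndex_ker χ
    have h2 := hx _ h1
    have h3 : Multiplicative.ofAdd ((z x : ℤ) : ZMod m) = 1 := MonoidHom.mem_ker.mp h2
    have h4 : ((z x : ℤ) : ZMod m) = 0 := ofAdd_eq_one.mp h3
    rw [ZMod.intCast_zmod_eq_zero_iff_dvd] at h4
    have h5 := Int.natAbs_dvd_natAbs.mpr h4
    rw [Int.natAbs_natCast] at h5
    have h6 := Nat.le_of_dvd (Int.natAbs_pos.mpr hne) h5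
    omega
  have h1 := hz x
  rw [hzx] at h1
  have h2 : (n : ℚ) ≠ 0 := by exact_mod_cast hn.ne'
  simpa [h2] using h1

theorem restr_le (H A : Subgroup G) : Restr H A ≤ HomQ (H ⊓ A : Subgroup G) := by
  rintro _ ⟨f, hf, rfl⟩ a b
  exact hf (Subgroup.inclusion inf_le_left a) (Subgroup.inclusion inf_le_left b)

theorem imgRank_le (H A : Subgroup G) (hA : A.FG) (hH : H.FiniteIndex) :
    imgRank H A ≤ finrank ℚ (HomQ (H ⊓ A : Subgroup G)) := by
  have h1 : Group.FG (H ⊓ A : Subgroup G) :=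
    (Group.fg_iff_subgroup_fg _).mpr (fg_inf hA hH)
  have h2 := homQ_finite h1
  exact Submodule.finrank_mono (restr_le H A)

theorem imgRank_eq_zero (hG : Group.FG G) (H A : Subgroup G) (hH : H.FiniteIndex)
    (h : ∀ L : Subgroup G, L.FiniteIndex → H ⊓ A ≤ L) : imgRank H A = 0 := by
  have hHfg : Group.FG H := Subgroup.fg_of_index_ne_zero H
  have h1 : Restr H A = ⊥ := by
    rw [eq_bot_iff]
    rintro _ ⟨f, hf, rfl⟩
    rw [Submodule.mem_bot]
    funext x
    refine homQ_residual hHfg hf _ fun L hL => ?_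
    have h2 : (L.map H.subtype).FiniteIndex := by
      refine ⟨?_⟩
      rw [Subgroup.index_map_subtype]
      exact mul_ne_zero hL.index_ne_zero hH.index_ne_zero
    obtain ⟨y, hy, hyx⟩ := h _ h2 x.2
    have h3 : y = Subgroup.inclusion (inf_le_left : H ⊓ A ≤ H) x := Subtype.ext hyx
    rwa [← h3]
  rw [imgRank, h1, finrank_bot]

/-- Soft subgroups are slow. -/
theorem soft_slow (hG : Group.FG G) {d : ℕ} {A : Subgroup G} (hA : Soft d A) :
    Slow (d : ℝ) A := by
  intro ε hε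
  by_cases hd : Deep A
  · obtain ⟨k, hk⟩ := exists_nat_gt (2 / ε)
    have hk0 : (0 : ℝ) < k := lt_trans (by positivity) hk
    have hkε : 2 < k * ε := by rwa [div_lt_iff₀ hε] at hk
    obtain ⟨H₁, hH₁, h1⟩ := soft_thin hA k
    obtain ⟨H₂, hH₂, h2⟩ := hd.exists_le k
    have hf : (H₁ ⊓ H₂).FiniteIndex := inferInstance
    refine ⟨H₁ ⊓ H₂, hf, fun H hH hn hHf => ?_⟩
    have hfin : Finite (G ⧸ H) := Subgroup.finite_quotient_of_finiteIndex
    have hker : (QuotientGroup.mk' H).ker = H := QuotientGroup.ker_mk' H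
    have h3 := h1 (G ⧸ H) (QuotientGroup.mk' H) (by rw [hker]; exact hH.trans inf_le_left)
    have h4 := h2 H (hH.trans inf_le_right) hHf
    have h5 := shapiro_sub (F := ℚ) (π := QuotientGroup.mk' H) hA.fg
    have h6 := card_mul_idx (QuotientGroup.mk' H) A
    rw [card_map, hker] at h6
    rw [hker] at h5
    have h7 : imgRank H A ≤ finrank ℚ (HomF ℚ (H ⊓ A : Subgroup G)) :=
      imgRank_le H A hA.fg hHf
    have hidx : (A.map (QuotientGroup.mk' H)).index ≠ 0 := by
      intro h0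
      rw [h0, mul_zero] at h6
      exact (Nat.card_pos (α := G ⧸ H)).ne h6
    obtain ⟨m, hm⟩ : ∃ m, m = (A.map (QuotientGroup.mk' H)).index := ⟨_, rfl⟩
    obtain ⟨a, ha⟩ : ∃ a, a = H.relIndex A := ⟨_, rfl⟩
    obtain ⟨z, hz⟩ : ∃ z, z = finrank ℚ (ZQ ℚ (QuotientGroup.mk' H) A) := ⟨_, rfl⟩
    obtain ⟨h, hh⟩ : ∃ h, h = finrank ℚ (HomF ℚ (H ⊓ A : Subgroup G)) := ⟨_, rfl⟩
    rw [← hm] at h5 h6 hidx
    rw [← ha] at h4 h6
    rw [← hz] at h3 h5
    rw [← hh] at h5 h7
    rw [← h6] at h3 h5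
    have hm0 : (0 : ℝ) < m := by exact_mod_cast Nat.pos_of_ne_zero hidx
    have h8 : (m : ℝ) * h + a * m ≤ z + m := by exact_mod_cast h5
    have h9 : (k : ℝ) * z ≤ (k * (d + 1) + 1) * (a * m) := by exact_mod_cast h3
    have h10 : (k : ℝ) * h ≤ (k * d + 1) * a + k := by
      have h11 : (m : ℝ) * (k * h) ≤ m * ((k * d + 1) * a + k) := by nlinarith
      exact le_of_mul_le_mul_left h11 hm0
    have h12 : (k : ℝ) ≤ a := by exact_mod_cast h4
    have h13 : (0 : ℝ) ≤ a := Nat.cast_nonneg _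
    have h14 : (imgRank H A : ℝ) ≤ h := by exact_mod_cast h7
    rw [← ha]
    have h15 : (k : ℝ) * h ≤ k * ((d + ε) * a) := by nlinarith
    exact h14.trans (le_of_mul_le_mul_left h15 hk0)
  · obtain ⟨J, hJ, h1⟩ := exists_stable hd
    refine ⟨J, hJ, fun H hH _ hHf => ?_⟩
    rw [imgRank_eq_zero hG H A hHf fun L hL => (inf_le_inf_right A hH).trans (h1 L hL)]
    push_cast
    positivity

/-- crossed homomorphisms are determined by their values on generators -/
theorem ZQ_gen {Q : Type*} [Group Q] [Finite Q] (π : G →* Q) (S : Finset G) :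
    finrank ℚ (ZQ ℚ π (Subgroup.closure (S : Set G))) ≤ S.card * Nat.card Q := by
  classical
  have := Fintype.ofFinite Q
  have hS : ∀ s : S, (s : G) ∈ Subgroup.closure (S : Set G) :=
    fun s => Subgroup.subset_closure s.2
  let Φ : ZQ ℚ π (Subgroup.closure (S : Set G)) →ₗ[ℚ] (S → Q → ℚ) :=
    (LinearMap.funLeft ℚ (Q → ℚ)
      (fun s : S => (⟨s, hS s⟩ : Subgroup.closure (S : Set G)))).comp
      (ZQ ℚ π (Subgroup.closure (S : Set G))).subtype
  have h1 := LinearMap.finrank_le_finrank_of_injective (f := Φ) (by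
    rw [← LinearMap.ker_eq_bot, LinearMap.ker_eq_bot']
    intro c hc
    exact Subtype.ext (ZQ_eq_zero c.2 (S : Set G) rfl fun s hs _ => congrFun hc ⟨s, hs⟩))
  rw [Module.finrank_pi_fintype] at h1
  simp only [finrank_funQ, Finset.sum_const, Finset.card_univ, Fintype.card_coe,
    smul_eq_mul] at h1
  exact h1

/-- Subgroups with `k` generators, `k ≥ 1`, are `(k - 1)`-slow. -/
theorem slow_of_generators (hG : Group.FG G) (S : Finset G) (hS : S.Nonempty) :
    Slow ((S.card : ℝ) - 1) (Subgroup.closure (S : Set G)) := by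
  intro ε hε
  obtain ⟨A, hAdef⟩ : ∃ A, A = Subgroup.closure (S : Set G) := ⟨_, rfl⟩
  have hA : A.FG := ⟨S, hAdef.symm⟩
  have hcard : (1 : ℝ) ≤ S.card := by exact_mod_cast hS.card_pos
  have hZ : ∀ (Q : Type u) [Group Q] [Finite Q] (π : G →* Q),
      finrank ℚ (ZQ ℚ π A) ≤ S.card * Nat.card Q := by
    rw [hAdef]
    exact fun Q _ _ π => ZQ_gen π S
  rw [← hAdef]
  by_cases hd : Deep A
  · obtain ⟨k, hk⟩ := exists_nat_gt (1 / ε)
    have hk0 : (0 : ℝ) < k := lt_trans (by positivity) hk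
    have hkε : 1 < k * ε := by rwa [div_lt_iff₀ hε] at hk
    obtain ⟨H₂, hH₂, h2⟩ := hd.exists_le k
    refine ⟨H₂, hH₂, fun H hH hn hHf => ?_⟩
    have hfin : Finite (G ⧸ H) := Subgroup.finite_quotient_of_finiteIndex
    have hker : (QuotientGroup.mk' H).ker = H := QuotientGroup.ker_mk' H
    have h3 := hZ (G ⧸ H) (QuotientGroup.mk' H)
    have h4 := h2 H hH hHf
    have h5 := shapiro_sub (F := ℚ) (π := QuotientGroup.mk' H) hA
    have h6 := card_mul_idx (QuotientGroup.mk' H) A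
    rw [card_map, hker] at h6
    rw [hker] at h5
    have h7 : imgRank H A ≤ finrank ℚ (HomF ℚ (H ⊓ A : Subgroup G)) :=
      imgRank_le H A hA hHf
    have hidx : (A.map (QuotientGroup.mk' H)).index ≠ 0 := by
      intro h0
      rw [h0, mul_zero] at h6
      exact (Nat.card_pos (α := G ⧸ H)).ne h6
    obtain ⟨m, hm⟩ : ∃ m, m = (A.map (QuotientGroup.mk' H)).index := ⟨_, rfl⟩
    obtain ⟨a, ha⟩ : ∃ a, a = H.relIndex A := ⟨_, rfl⟩
    obtain ⟨z, hz⟩ : ∃ z, z = finrank ℚ (ZQ ℚ (QuotientGroup.mk' H) A) := ⟨_, rfl⟩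
    obtain ⟨h, hh⟩ : ∃ h, h = finrank ℚ (HomF ℚ (H ⊓ A : Subgroup G)) := ⟨_, rfl⟩
    rw [← hm] at h5 h6 hidx
    rw [← ha] at h4 h6
    rw [← hz] at h3 h5
    rw [← hh] at h5 h7
    rw [← h6] at h3 h5
    have hm0 : (0 : ℝ) < m := by exact_mod_cast Nat.pos_of_ne_zero hidx
    have h8 : (m : ℝ) * h + a * m ≤ z + m := by exact_mod_cast h5
    have h9 : (z : ℝ) ≤ S.card * (a * m) := by exact_mod_cast h3
    have h10 : (h : ℝ) ≤ (S.card - 1) * a + 1 := by
      have h11 : (m : ℝ) * h ≤ m * ((S.card - 1) * a + 1) := by nlinarith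
      exact le_of_mul_le_mul_left h11 hm0
    have h12 : (k : ℝ) ≤ a := by exact_mod_cast h4
    have h14 : (imgRank H A : ℝ) ≤ h := by exact_mod_cast h7
    rw [← ha]
    have h15 : 1 ≤ ε * a := by nlinarith
    have h16 : ((S.card : ℝ) - 1 + ε) * a = (S.card - 1) * a + ε * a := by ring
    rw [h16]
    linarith
  · obtain ⟨J, hJ, h1⟩ := exists_stable hd
    refine ⟨J, hJ, fun H hH _ hHf => ?_⟩
    rw [imgRank_eq_zero hG H A hHf fun L hL => (inf_le_inf_right A hH).trans (h1 L hL)]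
    push_cast
    have h2 : (0 : ℝ) ≤ H.relIndex A := Nat.cast_nonneg _
    exact mul_nonneg (by linarith) h2

end Pool.Agent.ChU
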