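import Pool.Agent.ChU.Final
import Pool.Agent.ChU.Rules

/-!
# Corollaries: numbers of generators
-/

namespace Pool.Agent.ChU

open Pool.Agent.ChP Pool.Agent.ChS
open Pool.Agent.ChL (SimplyConn)

/-- The fundamental group of a closed affine 4-manifold has at least `1 + (8 |χ| - 3 χ) / 6`
generators. -/
theorem cor_generators (K : AffineTriangulation 4) (hc : Connected K) (hs : SimplyConn K)
    (S : Finset K.Γ) (hne : S.Nonempty) (hS : Subgroup.closure (S : Set K.Γ) = ⊤) :
    8 * |(K.eulerChar : ℝ)| - 3 * K.eulerChar ≤ 6 * ((S.card : ℝ) - 1) := by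
  have h1 := slow_of_generators (gamma_fg K hc) S hne
  rw [hS] at h1
  exact cor_bound K hc hs ⊤ inferInstance _ h1

/-- The fundamental group of a closed affine 4-manifold is large relative to every finite family of
subgroups `A i` with `k i ≥ 1` generators, `6 ∑ (k i - 1) < 8 |χ| - 3 χ`. -/
theorem cor_rel_generators (K : AffineTriangulation 4) (hc : Connected K) (hs : SimplyConn K)
    {ι : Type*} [Fintype ι] (S : ι → Finset K.Γ) (hne : ∀ i, (S i).Nonempty)
    (hd : 6 * ∑ i, (((S i).card : ℝ) - 1) < 8 * |(K.eulerChar : ℝ)| - 3 * K.eulerChar) :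
    LargeRel (fun i => Subgroup.closure (S i : Set K.Γ)) :=
  final_rel K hc hs _ (fun i => ⟨S i, rfl⟩) _
    (fun i => slow_of_generators (gamma_fg K hc) (S i) (hne i)) hd

end Pool.Agent.ChU
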