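import Mathlib

/-!
# Subgroups with small image in the rational first homology of the subgroups of finite index

`imgRank H A` is the rank of the image of `H ∩ A` in `H₁(H; ℚ)`.  `Slow d A` says that it is at most
`(d + ε) * [A : H ∩ A]` for all sufficiently small normal subgroups `H` of finite index.
`LargeRel A` says that a subgroup `H` of finite index of `G` has a homomorphism onto the free group
of rank 2 which is trivial on all elements of `H` which are conjugate in `G` to elements of the
subgroups `A i`.
-/

namespace Pool.Agent.ChU

open Module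

/-- The homomorphisms of `H` into `ℚ` (written additively), as a vector space: `H¹(H; ℚ)`. -/
def HomQ (H : Type*) [Group H] : Submodule ℚ (H → ℚ) where
  carrier := {f | ∀ g h, f (g * h) = f g + f h}
  add_mem' := by
    intro a b ha hb g h
    simp only [Pi.add_apply]
    rw [ha, hb]
    abel
  zero_mem' := by
    intro g h
    simp
  smul_mem' := by
    intro c a ha g h
    simp only [Pi.smul_apply]
    rw [ha, smul_add]

variable {G : Type*} [Group G]

/-- The restrictions to `H ∩ A` of the homomorphisms of `H` into `ℚ`. -/
def Restr (H A : Subgroup G) : Submodule ℚ ((H ⊓ A : Subgroup G) → ℚ) :=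
  (HomQ H).map (LinearMap.funLeft ℚ ℚ (Subgroup.inclusion (inf_le_left : H ⊓ A ≤ H)))

/-- The dimension of the space of the restrictions to `H ∩ A` of the homomorphisms of `H` into `ℚ`,
i.e. the rank of the image of `H ∩ A` in `H₁(H; ℚ)`. -/
noncomputable def imgRank (H A : Subgroup G) : ℕ := finrank ℚ (Restr H A)

/-- For every `ε > 0` and all normal subgroups `H` of finite index of `G` which are contained in a
suitable subgroup of finite index, the rank of the image of `H ∩ A` in `H₁(H; ℚ)` is at most
`(d + ε) * [A : H ∩ A]`. -/
def Slow (d : ℝ) (A : Subgroup G) : Prop :=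
  ∀ ε : ℝ, 0 < ε → ∃ H₀ : Subgroup G, H₀.FiniteIndex ∧ ∀ H : Subgroup G, H ≤ H₀ → H.Normal →
    H.FiniteIndex → (imgRank H A : ℝ) ≤ (d + ε) * H.relIndex A

/-- A subgroup `H` of finite index has a homomorphism onto the free group of rank 2 which is trivial
on the elements of `H` which are conjugate in `G` to elements of the subgroups `A i`. -/
def LargeRel {ι : Type*} (A : ι → Subgroup G) : Prop :=
  ∃ H : Subgroup G, H.FiniteIndex ∧ ∃ ψ : H →* FreeGroup (Fin 2), Function.Surjective ψ ∧
    ∀ i, ∀ g : G, ∀ h : H, g⁻¹ * (h : G) * g ∈ A i → ψ h = 1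

end Pool.Agent.ChU
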