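import Pool.Agent.ChU.RelLarge
import Pool.Agent.ChT.FinalT
import Pool.Agent.ChB.FinalB

/-!
# Closed affine 4-manifolds with non-zero Euler characteristic: fundamental groups which are large
relative to slow subgroups
-/

namespace Pool.Agent.ChU

open Module
open Pool.Agent.ChP Pool.Agent.ChS
open Pool.Agent.ChL (SimplyConn h1Zero_of_simplyConn HomR Large)
open Pool.Agent.ChT (toCx)

/-- The fundamental group `G` of a closed affine 4-manifold is large relative to every finite family
of finitely generated `d i`-slow subgroups with `6 ∑ d i < 8 |χ| - 3 χ`. -/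
theorem final_rel (K : AffineTriangulation 4) (hc : Connected K) (hs : SimplyConn K)
    {ι : Type*} [Fintype ι] (A : ι → Subgroup K.Γ) (hfg : ∀ i, (A i).FG)
    (d : ι → ℝ) (hA : ∀ i, Slow (d i) (A i))
    (hd : 6 * ∑ i, d i < 8 * |(K.eulerChar : ℝ)| - 3 * K.eulerChar) : LargeRel A := by
  refine rel_large (X := toCx K hc) hc hs (8 * |(K.eulerChar : ℝ)| - 3 * K.eulerChar) ?_ A d hfg
    hA hd
  intro N
  obtain ⟨Γ₀, hΓ₀, h1⟩ := ChB.final_betti K hc (h1Zero_of_simplyConn hs) N
  refine ⟨Γ₀, hΓ₀, fun H hH hHf => ?_⟩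
  have h2 := h1 H hH hHf
  have h3 : (N : ℝ) * (8 * (H.index * |(K.eulerChar : ℝ)|) + 6) ≤
      N * (3 * (H.index * (K.eulerChar : ℝ)) + 6 * (finrank ℚ (HomR ℚ H) : ℝ)) + H.index := by
    exact_mod_cast h2
  have h4 : (finrank ℚ (HomQ H) : ℝ) = (finrank ℚ (HomR ℚ H) : ℝ) := rfl
  rw [h4]
  have h5 : (0 : ℝ) ≤ N := Nat.cast_nonneg N
  nlinarith

/-- The case of the empty family: the fundamental group is large. -/
theorem cor_large (K : AffineTriangulation 4) (hc : Connected K) (hs : SimplyConn K)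
    (hχ : K.eulerChar ≠ 0) : Large K.Γ := by
  have h0 : (K.eulerChar : ℝ) ≠ 0 := by exact_mod_cast hχ
  have h1 : 0 < |(K.eulerChar : ℝ)| := abs_pos.mpr h0
  have h2 : (K.eulerChar : ℝ) ≤ |(K.eulerChar : ℝ)| := le_abs_self _
  obtain ⟨H, hH, ψ, hψ, -⟩ := final_rel K hc hs (ι := Fin 0) Fin.elim0 (fun i => i.elim0)
    Fin.elim0 (fun i => i.elim0) (by
      rw [Finset.univ_eq_empty, Finset.sum_empty, mul_zero]
      linarith)
  exact ⟨H, hH, ψ, hψ⟩

/-- A subgroup of finite index is not in the kernel. -/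
theorem not_largeRel {G : Type*} [Group G] (A : Subgroup G) (hA : A.FiniteIndex) :
    ¬ LargeRel (fun _ : Unit => A) := by
  rintro ⟨H, hH, ψ, hψ, hk⟩
  have h1 : A.subgroupOf H ≤ ψ.ker := by
    intro h hh
    refine MonoidHom.mem_ker.mpr (hk () 1 h ?_)
    rw [inv_one, one_mul, mul_one]
    exact hh
  have h2 : ψ.ker.FiniteIndex := Subgroup.finiteIndex_of_le h1
  have h3 : Finite (FreeGroup (Fin 2)) := by
    have h4 : Finite (H ⧸ ψ.ker) := Subgroup.finite_quotient_of_finiteIndex
    exact Finite.of_equiv _ (QuotientGroup.quotientKerEquivOfSurjective ψ hψ).toEquiv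
  exact not_finite (FreeGroup (Fin 2))

/-- The case of one subgroup of finite index: a bound for the Euler characteristic. -/
theorem cor_bound (K : AffineTriangulation 4) (hc : Connected K) (hs : SimplyConn K)
    (A : Subgroup K.Γ) (hAf : A.FiniteIndex) (d : ℝ) (hA : Slow d A) :
    8 * |(K.eulerChar : ℝ)| - 3 * K.eulerChar ≤ 6 * d := by
  by_contra hcon
  have hG : Group.FG K.Γ := gamma_fg K hc
  have hfg : A.FG := (Group.fg_iff_subgroup_fg A).1 (Subgroup.fg_of_index_ne_zero A)
  refine not_largeRel A hAf (final_rel K hc hs (fun _ : Unit => A) (fun _ => hfg) (fun _ => d)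
    (fun _ => hA) ?_)
  rw [Finset.univ_unique, Finset.sum_singleton]
  exact not_le.mp hcon

end Pool.Agent.ChU
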