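import Pool.Agent.ChU.Rank

/-!
# Linear growth relative to slow subgroups
-/

namespace Pool.Agent.ChU

open Module

theorem grad_rel {G : Type*} [Group G] (hG : Group.FG G) (c : ℝ)
    (hgr : ∀ N : ℕ, ∃ Γ₀ : Subgroup G, Γ₀.FiniteIndex ∧ ∀ H : Subgroup G, H ≤ Γ₀ →
      H.FiniteIndex → N * (c * H.index) ≤ N * (6 * (finrank ℚ (HomQ H) : ℝ)) + H.index)
    {ι : Type*} [Fintype ι] (A : ι → Subgroup G) (d : ι → ℝ) (hA : ∀ i, Slow (d i) (A i))
    (hd : 6 * ∑ i, d i < c) :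
    ∃ (C : ℕ) (H₀ : Subgroup G), 0 < C ∧ H₀.Normal ∧ H₀.FiniteIndex ∧
      ∀ H : Subgroup G, H ≤ H₀ → H.Normal → H.FiniteIndex →
        H.index ≤ C * finrank ℚ (RelQ A H) := by
  classical
  obtain ⟨δ, hδ⟩ : ∃ δ, δ = c - 6 * ∑ i, d i := ⟨_, rfl⟩
  have hδ0 : 0 < δ := by rw [hδ]; linarith
  obtain ⟨n, hn⟩ : ∃ n : ℝ, n = (Fintype.card ι : ℝ) + 1 := ⟨_, rfl⟩
  have hn0 : 0 < n := by
    rw [hn]
    positivity
  obtain ⟨ε, hε⟩ : ∃ ε, ε = δ / (18 * n) := ⟨_, rfl⟩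
  have hε0 : 0 < ε := by rw [hε]; positivity
  obtain ⟨N, hN⟩ := exists_nat_gt (3 / δ)
  have hN0 : (0 : ℝ) < N := lt_trans (by positivity) hN
  obtain ⟨Γ₀, hΓ₀, hgr'⟩ := hgr N
  choose J hJ hJ1 using fun i => hA i ε hε0
  have hf : (⨅ i, J i).FiniteIndex := Subgroup.finiteIndex_iInf hJ
  have hf' : (Γ₀ ⊓ ⨅ i, J i).FiniteIndex := inferInstance
  have hcore : (Γ₀ ⊓ ⨅ i, J i).normalCore ≤ Γ₀ ⊓ ⨅ i, J i := Subgroup.normalCore_le _
  obtain ⟨C, hC⟩ := exists_nat_gt (18 / δ)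
  have hC0 : (0 : ℝ) < C := lt_trans (by positivity) hC
  refine ⟨C, (Γ₀ ⊓ ⨅ i, J i).normalCore, by exact_mod_cast hC0, inferInstance, inferInstance,
    fun H hH hHn hHf => ?_⟩
  have h1 := hgr' H (hH.trans (hcore.trans inf_le_left)) hHf
  have h2 := rel_rank hG A H hHn hHf
  have hidx : (0 : ℝ) < H.index := by
    exact_mod_cast Nat.pos_of_ne_zero hHf.index_ne_zero
  -- the costs
  have h3 : ∀ i, (((A i ⊔ H).index * imgRank H (A i) : ℕ) : ℝ) ≤ (d i + ε) * H.index := by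
    intro i
    have h4 := hJ1 i H (hH.trans (hcore.trans (inf_le_right.trans (iInf_le J i)))) hHn hHf
    have h5 : ((A i ⊔ H).index : ℝ) * H.relIndex (A i) = H.index := by
      exact_mod_cast sup_index (A i) H hHn
    push_cast
    calc ((A i ⊔ H).index : ℝ) * imgRank H (A i)
        ≤ (A i ⊔ H).index * ((d i + ε) * H.relIndex (A i)) :=
          mul_le_mul_of_nonneg_left h4 (Nat.cast_nonneg _)
      _ = (d i + ε) * ((A i ⊔ H).index * H.relIndex (A i)) := by ring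
      _ = (d i + ε) * H.index := by rw [h5]
  have h4 : ((∑ i, (A i ⊔ H).index * imgRank H (A i) : ℕ) : ℝ) ≤
      (∑ i, d i + Fintype.card ι * ε) * H.index := by
    rw [Nat.cast_sum]
    calc ∑ i, (((A i ⊔ H).index * imgRank H (A i) : ℕ) : ℝ)
        ≤ ∑ i, (d i + ε) * H.index := Finset.sum_le_sum fun i _ => h3 i
      _ = (∑ i, d i + Fintype.card ι * ε) * H.index := by
          rw [← Finset.sum_mul, Finset.sum_add_distrib, Finset.sum_const, Finset.card_univ,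
            nsmul_eq_mul]
  have h5 : (finrank ℚ (HomQ H) : ℝ) ≤ finrank ℚ (RelQ A H) +
      ((∑ i, (A i ⊔ H).index * imgRank H (A i) : ℕ) : ℝ) := by exact_mod_cast h2
  -- the choice of `N`
  have h6 : (N : ℝ) * (c * H.index - 6 * (finrank ℚ (HomQ H) : ℝ)) ≤
      N * (δ / 3 * H.index) := by
    have h7 : 3 < N * δ := by
      rwa [div_lt_iff₀ hδ0] at hN
    nlinarith
  have h7 : c * H.index - 6 * (finrank ℚ (HomQ H) : ℝ) ≤ δ / 3 * H.index :=
    le_of_mul_le_mul_left h6 hN0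
  have h8 : (Fintype.card ι : ℝ) * ε ≤ δ / 18 := by
    have h9 : ε * n = δ / 18 := by
      rw [hε]
      field_simp
    have h10 : (Fintype.card ι : ℝ) ≤ n := by rw [hn]; linarith
    calc (Fintype.card ι : ℝ) * ε ≤ n * ε := mul_le_mul_of_nonneg_right h10 hε0.le
      _ = δ / 18 := by rw [mul_comm, h9]
  have h9 : (Fintype.card ι : ℝ) * ε * H.index ≤ δ / 18 * H.index :=
    mul_le_mul_of_nonneg_right h8 hidx.le
  have h10 : δ / 3 * H.index ≤ 6 * (finrank ℚ (RelQ A H) : ℝ) := by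
    have h11 : c * H.index = δ * H.index + 6 * (∑ i, d i) * H.index := by
      rw [hδ]
      ring
    have h12 : (∑ i, d i + Fintype.card ι * ε) * H.index =
        (∑ i, d i) * H.index + Fintype.card ι * ε * H.index := by ring
    nlinarith
  have h11 : (H.index : ℝ) ≤ C * (finrank ℚ (RelQ A H) : ℝ) := by
    have h12 : 18 < C * δ := by
      rwa [div_lt_iff₀ hδ0] at hC
    have h13 : (0 : ℝ) ≤ finrank ℚ (RelQ A H) := Nat.cast_nonneg _
    have h14 : 18 * (H.index : ℝ) ≤ C * δ * H.index :=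
      mul_le_mul_of_nonneg_right h12.le hidx.le
    have h15 : (C : ℝ) * (δ / 3 * H.index) ≤ C * (6 * (finrank ℚ (RelQ A H) : ℝ)) :=
      mul_le_mul_of_nonneg_left h10 hC0.le
    nlinarith
  exact_mod_cast h11

end Pool.Agent.ChU
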