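import Pool.Agent.ChT.CxIter

/-!
# Functions with small support in the derived `p`-series, general constant
-/

namespace Pool.Agent.ChU

open Pool.Agent.ChL (HomR Fr nOrb orb_finite nOrb_index nOrb_mono nOrb_union_le nOrb_le_mul
  nOrb_image_le exists_avg finrank_cut finrank_cut_orb homR_finite fr_le fr_comm fr_conj
  fr_finiteIndex fr_index exists_dual finrank_sym_le Large large_of_homs)
open Pool.Agent.ChT

variable {K : Cx}

theorem pos_of_le_mul {a b C : ℕ} (ha : 0 < a) (h : a ≤ C * b) : 0 < b := by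
  rcases Nat.eq_zero_or_pos b with h0 | h0
  · rw [h0, mul_zero] at h
    omega
  · exact h0

theorem exists_large_index (p : ℕ) [Fact p.Prime] (C : ℕ) (Γ₀ : Subgroup K.Γ)
    (hN₀ : Γ₀.Normal) (hΓ₀ : Γ₀.FiniteIndex)
    (hgr : ∀ H : Subgroup K.Γ, H ≤ Γ₀ → H.Normal → H.FiniteIndex →
      H.index ≤ C * Module.finrank (ZMod p) (HomR (ZMod p) H)) (N : ℕ) :
    ∃ H : Subgroup K.Γ, H ≤ Γ₀ ∧ H.Normal ∧ H.FiniteIndex ∧ N ≤ H.index := by
  induction N with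
  | zero => exact ⟨Γ₀, le_rfl, hN₀, hΓ₀, Nat.zero_le _⟩
  | succ N ih =>
    obtain ⟨H, hH0, hn, hH, hN⟩ := ih
    have h1 := hgr H hH0 hn hH
    have h3 : 0 < H.index := Nat.pos_of_ne_zero hH.index_ne_zero
    have h4 := pos_of_le_mul h3 h1
    have h2 := fr_index p K.fg H hH (by omega)
    exact ⟨Fr p H, (fr_le p H).trans hH0, fr_normal p H hn, fr_finiteIndex p K.fg H hH, by omega⟩

theorem iterate_step (hc : Conn K) (hs : SC K) (p : ℕ) [Fact p.Prime] (C : ℕ) (hC : 0 < C)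
    (Γ₀ : Subgroup K.Γ) (hN₀ : Γ₀.Normal) (hΓ₀ : Γ₀.FiniteIndex)
    (hgr : ∀ H : Subgroup K.Γ, H ≤ Γ₀ → H.Normal → H.FiniteIndex →
      H.index ≤ C * Module.finrank (ZMod p) (HomR (ZMod p) H))
    (m : ℕ) (hm : m = C * (nOrb (⊤ : Subgroup K.Γ) (Tr K) + 2)) (i : ℕ) :
    ∃ H : Subgroup K.Γ, H ≤ Γ₀ ∧ H.Normal ∧ H.FiniteIndex ∧ m * m + m ≤ H.index ∧
      ∃ f : Fin m → K.V → ZMod p, (∀ l, f l ∈ QInv (K := K) p H) ∧ Indep p H f ∧
        (p ^ m) ^ i * nOrb H (Supp f) ≤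
          (p ^ m - 1) ^ i * (H.index * nOrb (⊤ : Subgroup K.Γ) (Ed K)) := by
  obtain ⟨T, hT⟩ : ∃ T, T = nOrb (⊤ : Subgroup K.Γ) (Tr K) := ⟨_, rfl⟩
  obtain ⟨T₂, hT₂⟩ : ∃ T₂, T₂ = nOrb (⊤ : Subgroup K.Γ) (Ed K) := ⟨_, rfl⟩
  obtain ⟨P, hP⟩ : ∃ P, P = p ^ m := ⟨_, rfl⟩
  rw [← hT] at hm
  rw [← hT₂, ← hP]
  induction i with
  | zero =>
    obtain ⟨H, hH0, hn, hH, hN⟩ := exists_large_index p C Γ₀ hN₀ hΓ₀ hgr (m * m + C * m)
    have h1 := hgr H hH0 hn hH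
    have h2 : m ≤ Module.finrank (ZMod p) (HomR (ZMod p) H) := by
      have h3 : 0 ≤ m * m := Nat.zero_le _
      have h4 : C * m ≤ C * Module.finrank (ZMod p) (HomR (ZMod p) H) := by omega
      exact Nat.le_of_mul_le_mul_left h4 hC
    have h5 : m ≤ C * m := Nat.le_mul_of_pos_left m hC
    obtain ⟨f, hf, hi⟩ := exists_start hc.1 p H m h2
    refine ⟨H, hH0, hn, hH, by omega, f, hf, hi, ?_⟩
    rw [pow_zero, pow_zero, one_mul, one_mul, hT₂, ← nOrb_ed H hH]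
    exact nOrb_mono H _ _ (fun e he => he.1) (ed_finite H hH)
  | succ i ih =>
    obtain ⟨H, hH0, hn, hH, hN, f, hf, hi, hle⟩ := ih
    have h1 := hgr H hH0 hn hH
    have h0 : 0 < H.index := Nat.pos_of_ne_zero hH.index_ne_zero
    have hpos := pos_of_le_mul h0 h1
    have hk : nOrb H (Tr K) + m * m + m ≤ m * Module.finrank (ZMod p) (HomR (ZMod p) H) := by
      rw [nOrb_tr H hH, ← hT]
      have h2 : (T + 2) * H.index ≤
          (T + 2) * (C * Module.finrank (ZMod p) (HomR (ZMod p) H)) :=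
        Nat.mul_le_mul_left _ h1
      have h4 : (T + 2) * (C * Module.finrank (ZMod p) (HomR (ZMod p) H)) =
          m * Module.finrank (ZMod p) (HomR (ZMod p) H) := by rw [hm]; ring
      have h5 : (T + 2) * H.index = H.index * T + 2 * H.index := by ring
      omega
    obtain ⟨f', hf', hi', hle'⟩ := step hc hs p H hH f hf hi hk
    have h2 := fr_index p K.fg H hH (by omega)
    refine ⟨Fr p H, (fr_le p H).trans hH0, fr_normal p H hn, fr_finiteIndex p K.fg H hH,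
      by omega, f', hf', hi', ?_⟩
    rw [← hP] at hle'
    have h3 : (Fr p H).relIndex H * H.index = (Fr p H).index :=
      Subgroup.relIndex_mul_index (fr_le p H)
    calc P ^ (i + 1) * nOrb (Fr p H) (Supp f')
        = P ^ i * (P * nOrb (Fr p H) (Supp f')) := by ring
      _ ≤ P ^ i * ((P - 1) * ((Fr p H).relIndex H * nOrb H (Supp f))) :=
        Nat.mul_le_mul_left _ hle'
      _ = (P - 1) * (Fr p H).relIndex H * (P ^ i * nOrb H (Supp f)) := by ring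
      _ ≤ (P - 1) * (Fr p H).relIndex H * ((P - 1) ^ i * (H.index * T₂)) :=
        Nat.mul_le_mul_left _ hle
      _ = (P - 1) ^ (i + 1) * ((Fr p H).relIndex H * H.index * T₂) := by ring
      _ = (P - 1) ^ (i + 1) * ((Fr p H).index * T₂) := by rw [h3]

/-- A function with non-trivial periods and few bad edges. -/
theorem exists_small (hc : Conn K) (hs : SC K) (p : ℕ) [Fact p.Prime] (C : ℕ) (hC : 0 < C)
    (Γ₀ : Subgroup K.Γ) (hN₀ : Γ₀.Normal) (hΓ₀ : Γ₀.FiniteIndex)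
    (hgr : ∀ H : Subgroup K.Γ, H ≤ Γ₀ → H.Normal → H.FiniteIndex →
      H.index ≤ C * Module.finrank (ZMod p) (HomR (ZMod p) H)) :
    ∃ (H : Subgroup K.Γ) (f : K.V → ZMod p), H ≤ Γ₀ ∧ H.FiniteIndex ∧ f ∈ QInv (K := K) p H ∧
      (∃ g ∈ H, ∃ v : K.V, f (g • v) ≠ f v) ∧
      nOrb H {e : K.V × K.V | Bad f e.1 e.2} <
        Module.finrank (ZMod p) (HomR (ZMod p) H) := by
  obtain ⟨T, hT⟩ : ∃ T, T = nOrb (⊤ : Subgroup K.Γ) (Tr K) := ⟨_, rfl⟩
  obtain ⟨T₂, hT₂⟩ : ∃ T₂, T₂ = nOrb (⊤ : Subgroup K.Γ) (Ed K) := ⟨_, rfl⟩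
  obtain ⟨m, hm⟩ : ∃ m, m = C * (nOrb (⊤ : Subgroup K.Γ) (Tr K) + 2) := ⟨_, rfl⟩
  have hm0 : 0 < m := by
    rw [hm]
    exact Nat.mul_pos hC (by omega)
  obtain ⟨P, hP⟩ : ∃ P, P = p ^ m := ⟨_, rfl⟩
  have hp2 : 2 ≤ p := (Fact.out : p.Prime).two_le
  have hP2 : 2 ≤ P := by
    rw [hP]
    calc 2 ≤ p := hp2
      _ = p ^ 1 := (pow_one p).symm
      _ ≤ p ^ m := Nat.pow_le_pow_right (by omega) (by omega)
  -- choose the number of steps
  obtain ⟨i, hi⟩ : ∃ i : ℕ, 2 * C * T * T₂ * (P - 1) ^ i < P ^ i := by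
    have hPr : (0 : ℝ) < P := by exact_mod_cast (by omega : 0 < P)
    have h1 : ((P : ℝ) - 1) / P < 1 := by
      rw [div_lt_one hPr]
      linarith
    have h0 : (0 : ℝ) ≤ ((P : ℝ) - 1) / P := by
      apply div_nonneg _ hPr.le
      have : (2 : ℝ) ≤ P := by exact_mod_cast hP2
      linarith
    obtain ⟨i, hi⟩ := exists_pow_lt_of_lt_one (x := (1 : ℝ) / (2 * C * T * T₂ + 1))
      (by positivity) h1
    refine ⟨i, ?_⟩
    rw [div_pow, div_lt_div_iff₀ (pow_pos hPr i) (by positivity)] at hi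
    have hc1 : ((P - 1 : ℕ) : ℝ) = (P : ℝ) - 1 := by
      rw [Nat.cast_sub (by omega)]
      norm_num
    have h2 : (2 * C * T * T₂ : ℝ) * ((P : ℝ) - 1) ^ i < (P : ℝ) ^ i := by
      have h3 : (0 : ℝ) ≤ ((P : ℝ) - 1) ^ i := by
        apply pow_nonneg
        have : (2 : ℝ) ≤ P := by exact_mod_cast hP2
        linarith
      have h4 : (0 : ℝ) < (P : ℝ) ^ i := pow_pos hPr i
      nlinarith
    rw [← hc1] at h2
    exact_mod_cast h2
  obtain ⟨H, hH0, hn, hH, hN, f, hf, hind, hle⟩ :=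
    iterate_step hc hs p C hC Γ₀ hN₀ hΓ₀ hgr m hm i
  have hu := hgr H hH0 hn hH
  rw [← hP, ← hT₂] at hle
  obtain ⟨f₀, hf₀⟩ : ∃ f₀, f₀ = f ⟨0, hm0⟩ := ⟨_, rfl⟩
  have hf₀Q : f₀ ∈ QInv (K := K) p H := by rw [hf₀]; exact hf _
  refine ⟨H, f₀, hH0, hH, hf₀Q, ?_, ?_⟩
  · by_contra hcon
    push Not at hcon
    have h1 := hind (Pi.single ⟨0, hm0⟩ 1) (by
      intro g hg v
      have h2 : ∀ w : K.V, ∑ l, (Pi.single ⟨0, hm0⟩ 1 : Fin m → ZMod p) l * f l w =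
          f₀ w := by
        intro w
        rw [Finset.sum_eq_single ⟨0, hm0⟩]
        · rw [Pi.single_eq_same, one_mul, hf₀]
        · intro b _ hb
          rw [Pi.single_eq_of_ne hb, zero_mul]
        · intro h
          exact absurd (Finset.mem_univ _) h
      rw [h2, h2, hcon g hg v])
    have h3 := congrFun h1 ⟨0, hm0⟩
    rw [Pi.single_eq_same] at h3
    exact one_ne_zero h3
  · have h1 := nOrb_bad_le H hH f₀ hf₀Q
    have h2 : nOrb H {e : K.V × K.V | e ∈ Ed K ∧ f₀ e.1 ≠ f₀ e.2} ≤ nOrb H (Supp f) := by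
      refine nOrb_mono H _ _ (fun e he => ⟨he.1, ⟨0, hm0⟩, by rw [← hf₀]; exact he.2⟩) ?_
      exact (ed_finite H hH).subset (Set.image_mono fun e he => he.1)
    rw [← hT] at h1
    have h3 : nOrb H {e : K.V × K.V | Bad f₀ e.1 e.2} ≤ 2 * T * nOrb H (Supp f) :=
      h1.trans (Nat.mul_le_mul_left _ h2)
    obtain ⟨N, hN⟩ : ∃ N, N = nOrb H {e : K.V × K.V | Bad f₀ e.1 e.2} := ⟨_, rfl⟩
    rw [← hN] at h3 ⊢
    have hk0 : 0 < H.index := Nat.pos_of_ne_zero hH.index_ne_zero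
    have hPi : 0 < P ^ i := pow_pos (by omega) i
    have h4 : P ^ i * (C * N) < P ^ i * H.index := by
      calc P ^ i * (C * N) ≤ P ^ i * (C * (2 * T * nOrb H (Supp f))) :=
            Nat.mul_le_mul_left _ (Nat.mul_le_mul_left _ h3)
        _ = 2 * C * T * (P ^ i * nOrb H (Supp f)) := by ring
        _ ≤ 2 * C * T * ((P - 1) ^ i * (H.index * T₂)) := Nat.mul_le_mul_left _ hle
        _ = (2 * C * T * T₂ * (P - 1) ^ i) * H.index := by ring
        _ < P ^ i * H.index := Nat.mul_lt_mul_of_pos_right hi hk0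
    have h5 : C * N < H.index := Nat.lt_of_mul_lt_mul_left h4
    exact Nat.lt_of_mul_lt_mul_left (h5.trans_le hu)

end Pool.Agent.ChU
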