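import Pool.Agent.ChU.Iter
import Pool.Agent.ChT.CxHom

/-!
# Linear growth of the first cohomology with coefficients in `ZMod p` implies largeness,
general constant
-/

namespace Pool.Agent.ChU

open Pool.Agent.ChL (HomR Large large_of_homs)
open Pool.Agent.ChT (Cx Conn SC exists_loop exists_hom_xy)

theorem cx_large {K : Cx} (hc : Conn K) (hs : SC K) (p : ℕ) [Fact p.Prime] (hp : p ≠ 2)
    (C : ℕ) (hC : 0 < C)
    (Γ₀ : Subgroup K.Γ) (hN₀ : Γ₀.Normal) (hΓ₀ : Γ₀.FiniteIndex)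
    (hgr : ∀ H : Subgroup K.Γ, H ≤ Γ₀ → H.Normal → H.FiniteIndex →
      H.index ≤ C * Module.finrank (ZMod p) (HomR (ZMod p) H)) :
    ∃ H : Subgroup K.Γ, H ≤ Γ₀ ∧ H.FiniteIndex ∧
      ∃ ψ : H →* FreeGroup (Fin 2), Function.Surjective ψ := by
  obtain ⟨H, f, hH0, hH, hf, ⟨g', hg', v₁, hne'⟩, hbad⟩ :=
    exists_small hc hs p C hC Γ₀ hN₀ hΓ₀ hgr
  obtain ⟨z, hz, hzb, v₀, g, hg, hj, hne⟩ := exists_loop hc p H hH f hf hbad
  have hL : Large H := large_of_homs p hp H ⊤ inferInstance (fun G _ x y => by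
    obtain ⟨ψ, hx, hy⟩ :=
      exists_hom_xy hc hs p H f hf v₁ g' hg' hne' z hz hzb v₀ g hg hj hne G x y
    refine ⟨ψ.comp (Subgroup.topEquiv : (⊤ : Subgroup H) ≃* H).toMonoidHom, fun a => ?_,
      fun a => ?_⟩
    · obtain ⟨h, hh⟩ := hx a
      exact ⟨⟨h, Subgroup.mem_top h⟩, hh⟩
    · obtain ⟨h, hh⟩ := hy a
      exact ⟨⟨h, Subgroup.mem_top h⟩, hh⟩)
  obtain ⟨L, hLf, ψ, hψ⟩ := hL
  refine ⟨L.map H.subtype, (Subgroup.map_subtype_le L).trans hH0, ⟨?_⟩, ?_⟩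
  · rw [Subgroup.index_map_subtype]
    exact mul_ne_zero hLf.index_ne_zero hH.index_ne_zero
  · let e : L ≃* L.map H.subtype := Subgroup.equivMapOfInjective L H.subtype H.subtype_injective
    exact ⟨ψ.comp e.symm.toMonoidHom, hψ.comp e.symm.surjective⟩

end Pool.Agent.ChU
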