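import Pool.Agent.ChU.Rank
import Pool.Agent.ChL.Z1Semi
import Pool.Agent.ChL.HomFin

/-!
# Homomorphisms into `ℚ` and into `ZMod p`
-/

namespace Pool.Agent.ChU

open Module Matrix
open Pool.Agent.ChL (HomR Z1R z1R_finrank_le z1R_trivial_finrank)

/-- The alternating matrix with given entries above the diagonal. -/
def altMat {R : Type*} [CommRing R] (x : Fin 6 → R) : Matrix (Fin 4) (Fin 4) R :=
  !![0, x 0, x 1, x 2; -x 0, 0, x 3, x 4; -x 1, -x 3, 0, x 5; -x 2, -x 4, -x 5, 0]

theorem altMat_transpose {R : Type*} [CommRing R] (x : Fin 6 → R) :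
    (altMat x)ᵀ = - altMat x := by
  ext i j
  fin_cases i <;> fin_cases j <;> simp [altMat]

theorem altMat_add {R : Type*} [CommRing R] (x y : Fin 6 → R) :
    altMat (x + y) = altMat x + altMat y := by
  ext i j
  fin_cases i <;> fin_cases j <;> simp [altMat] <;> ring

theorem altMat_eq {k : Type*} [Field k] (h2 : (2 : k) ≠ 0)
    {M : Matrix (Fin 4) (Fin 4) k} (hM : Mᵀ = -M) :
    altMat ![M 0 1, M 0 2, M 0 3, M 1 2, M 1 3, M 2 3] = M := by
  have hij : ∀ i j, M j i = - M i j := by
    intro i j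
    have := congrFun (congrFun hM i) j
    rwa [Matrix.transpose_apply, Matrix.neg_apply] at this
  have hd : ∀ i, M i i = 0 := by
    intro i
    have h1 := hij i i
    have h3 : (2 : k) * M i i = 0 := by
      rw [two_mul]
      nth_rewrite 1 [h1]
      exact neg_add_cancel _
    exact (mul_eq_zero.mp h3).resolve_left h2
  ext i j
  fin_cases i <;> fin_cases j <;> simp [altMat, hd]
  · exact (hij 0 1).symm
  · exact (hij 0 2).symm
  · exact (hij 1 2).symm
  · exact (hij 0 3).symm
  · exact (hij 1 3).symm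
  · exact (hij 2 3).symm

/-- The six entries. -/
def altEquiv {H : Type*} [Group H] :
    Z1R ℚ (fun _ : H => (1 : ℚ)) (fun _ => 1) ≃ₗ[ℚ] (Fin 6 → HomQ H) where
  toFun z := fun i =>
    ⟨fun g => (![(z : H → Matrix (Fin 4) (Fin 4) ℚ) g 0 1, (z : H → Matrix (Fin 4) (Fin 4) ℚ) g 0 2,
      (z : H → Matrix (Fin 4) (Fin 4) ℚ) g 0 3, (z : H → Matrix (Fin 4) (Fin 4) ℚ) g 1 2,
      (z : H → Matrix (Fin 4) (Fin 4) ℚ) g 1 3, (z : H → Matrix (Fin 4) (Fin 4) ℚ) g 2 3] :
      Fin 6 → ℚ) i, by
      intro g h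
      have h1 := z.2.2 g h
      simp only [Matrix.transpose_one, Matrix.one_mul, Matrix.mul_one, one_smul] at h1
      simp only [h1, Matrix.add_apply]
      fin_cases i <;> rfl⟩
  map_add' a b := by
    funext i
    apply Subtype.ext
    funext g
    fin_cases i <;> rfl
  map_smul' c a := by
    funext i
    apply Subtype.ext
    funext g
    fin_cases i <;> rfl
  invFun f := ⟨fun g => altMat (fun i => (f i : H → ℚ) g), by
    refine ⟨fun g => altMat_transpose _, fun g h => ?_⟩
    simp only [Matrix.transpose_one, Matrix.one_mul, Matrix.mul_one, one_smul]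
    rw [← altMat_add]
    congr 1
    funext i
    exact (f i).2 g h⟩
  left_inv z := by
    apply Subtype.ext
    funext g
    exact altMat_eq (by norm_num) (z.2.1 g)
  right_inv f := by
    funext i
    apply Subtype.ext
    funext g
    fin_cases i <;> rfl

/-- The rank of the first cohomology over `ℚ` is at most the dimension of the first cohomology over
`ZMod p`. -/
theorem homQ_le_homP {H : Type*} [Group H] (hH : Group.FG H) (p : ℕ) [Fact p.Prime]
    (hp : p ≠ 2) : finrank ℚ (HomQ H) ≤ finrank (ZMod p) (HomR (ZMod p) H) := by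
  have hfin : Module.Finite ℚ (HomQ H) := homQ_finite hH
  obtain ⟨S, hS⟩ := Group.fg_def.mp hH
  have h1 := z1R_finrank_le S hS (1 : H →* ℤ) (1 : H →* Matrix (Fin 4) (Fin 4) ℤ) ℚ (ZMod p)
    (Int.castRingHom ℚ) Int.cast_injective (Int.castRingHom (ZMod p))
  have e1 : (fun g : H => (Int.castRingHom ℚ) ((1 : H →* ℤ) g)) = fun _ => 1 := by
    funext g
    rw [MonoidHom.one_apply, map_one]
  have e2 : (fun g : H => (Int.castRingHom (ZMod p)) ((1 : H →* ℤ) g)) = fun _ => 1 := by
    funext g
    rw [MonoidHom.one_apply, map_one]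
  have e3 : (fun g : H => ((1 : H →* Matrix (Fin 4) (Fin 4) ℤ) g).map (Int.castRingHom ℚ)) =
      fun _ => 1 := by
    funext g
    rw [MonoidHom.one_apply]
    exact Matrix.map_one _ (map_zero _) (map_one _)
  have e4 : (fun g : H => ((1 : H →* Matrix (Fin 4) (Fin 4) ℤ) g).map
      (Int.castRingHom (ZMod p))) = fun _ => 1 := by
    funext g
    rw [MonoidHom.one_apply]
    exact Matrix.map_one _ (map_zero _) (map_one _)
  rw [e1, e2, e3, e4] at h1
  have h2 : (2 : ZMod p) ≠ 0 := by
    intro h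
    have h3 : ((2 : ℕ) : ZMod p) = 0 := by exact_mod_cast h
    rw [ZMod.natCast_eq_zero_iff] at h3
    have h4 := (Nat.prime_two.eq_one_or_self_of_dvd p h3)
    rcases h4 with h4 | h4
    · exact (Fact.out : p.Prime).one_lt.ne' h4
    · exact hp h4
  rw [z1R_trivial_finrank (ZMod p) h2 hH, LinearEquiv.finrank_eq altEquiv,
    Module.finrank_pi_fintype] at h1
  simp only [Finset.sum_const, Finset.card_univ, Fintype.card_fin, smul_eq_mul] at h1
  omega

end Pool.Agent.ChU
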