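import Pool.Agent.ChU.Defs

/-!
# Homomorphisms which vanish on the conjugates of given subgroups: a bound from below
-/

namespace Pool.Agent.ChU

open Module

variable {G : Type*} [Group G]

/-- The homomorphisms of `H` into `ℚ` which vanish on the conjugates of the subgroups `A i`. -/
def RelQ {ι : Type*} (A : ι → Subgroup G) (H : Subgroup G) : Submodule ℚ (H → ℚ) where
  carrier := {f | f ∈ HomQ H ∧ ∀ i, ∀ g : G, ∀ h : H, g⁻¹ * (h : G) * g ∈ A i → f h = 0}
  add_mem' := by
    rintro a b ⟨ha, ha'⟩ ⟨hb, hb'⟩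
    refine ⟨Submodule.add_mem _ ha hb, fun i g h hh => ?_⟩
    rw [Pi.add_apply, ha' i g h hh, hb' i g h hh, add_zero]
  zero_mem' := ⟨Submodule.zero_mem _, fun i g h _ => rfl⟩
  smul_mem' := by
    rintro c a ⟨ha, ha'⟩
    refine ⟨Submodule.smul_mem _ c ha, fun i g h hh => ?_⟩
    rw [Pi.smul_apply, ha' i g h hh, smul_zero]

theorem relQ_le {ι : Type*} (A : ι → Subgroup G) (H : Subgroup G) : RelQ A H ≤ HomQ H :=
  fun _ h => h.1

theorem homQ_one {H : Type*} [Group H] {f : H → ℚ} (hf : f ∈ HomQ H) : f 1 = 0 := by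
  have h1 := hf 1 1
  rw [mul_one] at h1
  linarith

theorem homQ_inv {H : Type*} [Group H] {f : H → ℚ} (hf : f ∈ HomQ H) (h : H) :
    f h⁻¹ = - f h := by
  have h1 := hf h h⁻¹
  rw [mul_inv_cancel, homQ_one hf] at h1
  linarith

theorem homQ_conj {H : Type*} [Group H] {f : H → ℚ} (hf : f ∈ HomQ H) (k h : H) :
    f (k * h * k⁻¹) = f h := by
  rw [hf, hf, homQ_inv hf]
  ring

theorem homQ_finite {H : Type*} [Group H] (hH : Group.FG H) : Module.Finite ℚ (HomQ H) := by
  obtain ⟨S, hS⟩ := Group.fg_def.mp hH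
  let L : HomQ H →ₗ[ℚ] (S → ℚ) :=
    { toFun := fun f s => f.1 s
      map_add' := fun a b => rfl
      map_smul' := fun c a => rfl }
  refine Module.Finite.of_injective L ?_
  rw [injective_iff_map_eq_zero]
  intro f hf
  let Z : Subgroup H :=
    { carrier := {h | f.1 h = 0}
      mul_mem' := by
        intro a b ha hb
        have h1 := f.2 a b
        have h2 : f.1 a = 0 := ha
        have h3 : f.1 b = 0 := hb
        rw [h2, h3, add_zero] at h1
        exact h1
      one_mem' := homQ_one f.2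
      inv_mem' := by
        intro a ha
        have h2 : f.1 a = 0 := ha
        change f.1 a⁻¹ = 0
        rw [homQ_inv f.2, h2, neg_zero] }
  have h1 : (⊤ : Subgroup H) ≤ Z := by
    rw [← hS, Subgroup.closure_le]
    intro s hs
    exact congrFun hf ⟨s, hs⟩
  apply Subtype.ext
  funext h
  exact h1 (Subgroup.mem_top h)

/-- the restriction to `H ∩ A` of the conjugate by `g` of a homomorphism of `H` -/
def conjRes (H A : Subgroup G) (hn : H.Normal) (g : G) : HomQ H →ₗ[ℚ] Restr H A where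
  toFun f := ⟨fun h => f.1 ⟨g * (h : G) * g⁻¹, hn.conj_mem h h.2.1 g⟩, by
    refine ⟨fun h : H => f.1 ⟨g * (h : G) * g⁻¹, hn.conj_mem h h.2 g⟩, ?_, ?_⟩
    · intro a b
      have h1 : (⟨g * ((a * b : H) : G) * g⁻¹, hn.conj_mem _ (a * b).2 g⟩ : H) =
          ⟨g * (a : G) * g⁻¹, hn.conj_mem a a.2 g⟩ * ⟨g * (b : G) * g⁻¹, hn.conj_mem b b.2 g⟩ := by
        ext
        simp only [Subgroup.coe_mul]
        group
      dsimp only
      rw [h1]
      exact f.2 _ _
    · rfl⟩
  map_add' _ _ := rfl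
  map_smul' _ _ := rfl

theorem conjRes_apply (H A : Subgroup G) (hn : H.Normal) (g : G) (f : HomQ H)
    (h : (H ⊓ A : Subgroup G)) :
    (conjRes H A hn g f).1 h = f.1 ⟨g * (h : G) * g⁻¹, hn.conj_mem h h.2.1 g⟩ := rfl

theorem restr_finite (hG : Group.FG G) (H A : Subgroup G) (hH : H.FiniteIndex) :
    Module.Finite ℚ (Restr H A) := by
  have h1 : Group.FG H := Subgroup.fg_of_index_ne_zero H
  have h2 := homQ_finite h1
  exact Module.Finite.map _ _

/-- The dimension of the space of the homomorphisms of `H` which vanish on the conjugates of the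
subgroups `A i`. -/
theorem rel_rank (hG : Group.FG G) {ι : Type*} [Fintype ι] (A : ι → Subgroup G)
    (H : Subgroup G) (hn : H.Normal) (hH : H.FiniteIndex) :
    finrank ℚ (HomQ H) ≤
      finrank ℚ (RelQ A H) + ∑ i, (A i ⊔ H).index * imgRank H (A i) := by
  classical
  have hHfg : Group.FG H := Subgroup.fg_of_index_ne_zero H
  have hfin : Module.Finite ℚ (HomQ H) := homQ_finite hHfg
  have hfR : ∀ i, Module.Finite ℚ (Restr H (A i)) := fun i => restr_finite hG H (A i) hH
  have hfi : ∀ i, (A i ⊔ H).FiniteIndex := fun i => Subgroup.finiteIndex_of_le le_sup_right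
  have hq : ∀ i, Finite (G ⧸ (A i ⊔ H)) := fun i => Subgroup.finite_quotient_of_finiteIndex
  have hq' : ∀ i, Fintype (G ⧸ (A i ⊔ H)) := fun i => Fintype.ofFinite _
  let Φ : HomQ H →ₗ[ℚ] (∀ i, (G ⧸ (A i ⊔ H)) → Restr H (A i)) :=
    LinearMap.pi fun i => LinearMap.pi fun q => conjRes H (A i) hn q.out
  have hker : ∀ f : HomQ H, Φ f = 0 → f.1 ∈ RelQ A H := by
    intro f hf
    refine ⟨f.2, fun i g h hh => ?_⟩
    obtain ⟨r, hr⟩ : ∃ r, r = (QuotientGroup.mk g : G ⧸ (A i ⊔ H)).out := ⟨_, rfl⟩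
    have h1 : r⁻¹ * g ∈ A i ⊔ H := by
      rw [hr, ← QuotientGroup.eq, QuotientGroup.out_eq']
    rw [Subgroup.mem_sup_of_normal_right] at h1
    obtain ⟨a, ha, k, hk, hak⟩ := h1
    have hg : g = r * a * k := by
      rw [mul_assoc, hak]
      group
    have hx : g⁻¹ * (h : G) * g ∈ H := by
      have h2 := hn.conj_mem h h.2 g⁻¹
      rwa [inv_inv] at h2
    -- the element of `A i` and `H`
    obtain ⟨x, hxd⟩ : ∃ x, x = g⁻¹ * (h : G) * g := ⟨_, rfl⟩
    rw [← hxd] at hh hx
    have hy : a * x * a⁻¹ ∈ H ⊓ A i :=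
      ⟨hn.conj_mem x hx a, (A i).mul_mem ((A i).mul_mem ha hh) ((A i).inv_mem ha)⟩
    have h3 : f.1 ⟨r * (a * x * a⁻¹) * r⁻¹, hn.conj_mem _ hy.1 r⟩ = 0 := by
      have h4 := congrFun (congrArg Subtype.val (congrFun (congrFun hf i)
        (QuotientGroup.mk g))) ⟨a * x * a⁻¹, hy⟩
      have h5 : (conjRes H (A i) hn (QuotientGroup.mk g : G ⧸ (A i ⊔ H)).out f).1
          ⟨a * x * a⁻¹, hy⟩ = 0 := h4
      rw [conjRes_apply] at h5
      rw [hr]
      exact h5
    have hk' : r * a * k * (r * a)⁻¹ ∈ H := hn.conj_mem k hk (r * a)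
    have h4 : h = (⟨r * a * k * (r * a)⁻¹, hk'⟩ : H) *
        ⟨r * (a * x * a⁻¹) * r⁻¹, hn.conj_mem _ hy.1 r⟩ *
        (⟨r * a * k * (r * a)⁻¹, hk'⟩ : H)⁻¹ := by
      ext
      simp only [Subgroup.coe_mul, Subgroup.coe_inv]
      have h5 : (h : G) = g * x * g⁻¹ := by
        rw [hxd]
        group
      rw [h5, hg]
      group
    rw [h4, homQ_conj f.2, h3]
  have h1 := LinearMap.finrank_range_add_finrank_ker Φ
  have h2 : finrank ℚ (LinearMap.range Φ) ≤
      finrank ℚ (∀ i, (G ⧸ (A i ⊔ H)) → Restr H (A i)) := Submodule.finrank_le _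
  have hfRel : Module.Finite ℚ (RelQ A H) :=
    Submodule.finiteDimensional_of_le (relQ_le A H)
  have h3 : finrank ℚ (LinearMap.ker Φ) ≤ finrank ℚ (RelQ A H) := by
    refine LinearMap.finrank_le_finrank_of_injective
      (f := (((HomQ H).subtype).comp (LinearMap.ker Φ).subtype).codRestrict (RelQ A H)
        (fun f => hker f.1 f.2)) ?_
    rw [injective_iff_map_eq_zero]
    intro f hf
    have h5 : f.1.1 = 0 := congrArg Subtype.val hf
    exact Subtype.ext (Subtype.ext h5)
  have h4 : finrank ℚ (∀ i, (G ⧸ (A i ⊔ H)) → Restr H (A i)) =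
      ∑ i, (A i ⊔ H).index * imgRank H (A i) := by
    rw [Module.finrank_pi_fintype]
    refine Finset.sum_congr rfl fun i _ => ?_
    rw [Module.finrank_pi_fintype, Finset.sum_const, Finset.card_univ, smul_eq_mul,
      ← Nat.card_eq_fintype_card]
    rfl
  rw [h4] at h2
  omega

/-- the number of the conjugates -/
theorem sup_index (A H : Subgroup G) (hn : H.Normal) :
    (A ⊔ H).index * H.relIndex A = H.index := by
  have h1 : H.relIndex (A ⊔ H) * (A ⊔ H).index = H.index :=
    Subgroup.relIndex_mul_index le_sup_right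
  rw [Subgroup.relIndex_sup_right] at h1
  rw [mul_comm]
  exact h1

end Pool.Agent.ChU
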