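import Pool.Agent.ChU.Grad
import Pool.Agent.ChU.ModP
import Pool.Agent.ChU.Large
import Pool.Agent.ChT.CxQuot
import Pool.Agent.ChT.Slow

/-!
# Large relative to slow subgroups
-/

namespace Pool.Agent.ChU

open Module
open Pool.Agent.ChL (HomR)
open Pool.Agent.ChT (Cx Conn SC quotCx quot_sc quot_conn fg_inf)

/-- homomorphisms which vanish on a normal subgroup -/
theorem quot_homQ {G : Type*} [Group G] (N : Subgroup G) [N.Normal]
    (L : Subgroup (G ⧸ N)) (hL : Module.Finite ℚ (HomQ L))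
    (M : Submodule ℚ (L.comap (QuotientGroup.mk' N) → ℚ))
    (hM : ∀ χ ∈ M, ∀ a b, χ (a * b) = χ a + χ b)
    (hN : ∀ χ ∈ M, ∀ h : L.comap (QuotientGroup.mk' N), (h : G) ∈ N → χ h = 0) :
    finrank ℚ M ≤ finrank ℚ (HomQ L) := by
  have hex : ∀ x : L, ∃ g : L.comap (QuotientGroup.mk' N), ((g : G) : G ⧸ N) = x := by
    rintro ⟨x, hx⟩
    obtain ⟨g, rfl⟩ := QuotientGroup.mk_surjective x
    exact ⟨⟨g, hx⟩, rfl⟩
  choose ℓ hℓ using hex
  have key : ∀ χ ∈ M, ∀ a b : L.comap (QuotientGroup.mk' N),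
      ((a : G) : G ⧸ N) = ((b : G) : G ⧸ N) → χ a = χ b := by
    intro χ hχ a b hab
    have h1 : a = b * (b⁻¹ * a) := by group
    have h2 : ((b⁻¹ * a : L.comap (QuotientGroup.mk' N)) : G) ∈ N := by
      have h3 := QuotientGroup.eq.mp hab.symm
      exact h3
    rw [h1, hM χ hχ, hN χ hχ _ h2, add_zero]
  let D : M →ₗ[ℚ] HomQ L :=
    { toFun := fun χ => ⟨fun x => χ.1 (ℓ x), by
        intro x y
        dsimp only
        rw [← hM χ.1 χ.2]
        refine key χ.1 χ.2 _ _ ?_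
        rw [hℓ, Subgroup.coe_mul, Subgroup.coe_mul, QuotientGroup.mk_mul, hℓ, hℓ]⟩
      map_add' := fun _ _ => rfl
      map_smul' := fun _ _ => rfl }
  refine LinearMap.finrank_le_finrank_of_injective (f := D) ?_
  rw [injective_iff_map_eq_zero]
  intro χ hχ
  apply Subtype.ext
  funext h
  have h1 : χ.1 (ℓ ⟨((h : G) : G ⧸ N), h.2⟩) = 0 :=
    congrFun (congrArg Subtype.val hχ) ⟨((h : G) : G ⧸ N), h.2⟩
  have h2 : (((ℓ ⟨((h : G) : G ⧸ N), h.2⟩ : L.comap (QuotientGroup.mk' N)) : G) : G ⧸ N) =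
      ((h : G) : G ⧸ N) := hℓ ⟨((h : G) : G ⧸ N), h.2⟩
  exact (key χ.1 χ.2 _ _ h2.symm).trans h1

theorem rel_large {X : Cx} (hc : Conn X) (hs : SC X) (c : ℝ)
    (hgr : ∀ N : ℕ, ∃ Γ₀ : Subgroup X.Γ, Γ₀.FiniteIndex ∧ ∀ H : Subgroup X.Γ, H ≤ Γ₀ →
      H.FiniteIndex → N * (c * H.index) ≤ N * (6 * (finrank ℚ (HomQ H) : ℝ)) + H.index)
    {ι : Type*} [Fintype ι] (A : ι → Subgroup X.Γ) (d : ι → ℝ) (hfg : ∀ i, (A i).FG)
    (hA : ∀ i, Slow (d i) (A i)) (hd : 6 * ∑ i, d i < c) : LargeRel A := by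
  classical
  have hfgX := X.fg
  obtain ⟨C, H₀, hC, hn₀, hf₀, hrel⟩ := grad_rel X.fg c hgr A d hA hd
  -- the normal subgroup
  have hgen : ∀ i, ∃ S : Finset X.Γ, Subgroup.closure (S : Set X.Γ) = H₀ ⊓ A i :=
    fun i => fg_inf (hfg i) hf₀
  choose S hS using hgen
  obtain ⟨T, hT⟩ : ∃ T : Finset X.Γ, T = Finset.univ.biUnion S := ⟨_, rfl⟩
  obtain ⟨N, hN⟩ : ∃ N : Subgroup X.Γ, N = Subgroup.normalClosure (T : Set X.Γ) := ⟨_, rfl⟩
  have hNn : N.Normal := by
    rw [hN]
    exact Subgroup.normalClosure_normal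
  have hTmem : ∀ t ∈ T, ∃ i, t ∈ H₀ ⊓ A i := by
    intro t ht
    rw [hT, Finset.mem_biUnion] at ht
    obtain ⟨i, -, hi⟩ := ht
    refine ⟨i, ?_⟩
    rw [← hS i]
    exact Subgroup.subset_closure hi
  have hAN : ∀ i, H₀ ⊓ A i ≤ N := by
    intro i
    rw [← hS i, Subgroup.closure_le, hN]
    intro t ht
    refine Subgroup.subset_normalClosure ?_
    rw [Finset.mem_coe, hT, Finset.mem_biUnion]
    exact ⟨i, Finset.mem_univ i, ht⟩
  have hNH : N ≤ H₀ := by
    rw [hN]
    refine Subgroup.normalClosure_le_normal ?_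
    intro t ht
    obtain ⟨i, hi⟩ := hTmem t ht
    exact hi.1
  -- the quotient
  obtain ⟨L, hL1, hsc⟩ := quot_sc hc hs T hN.symm
  have hcn := quot_conn (N := N) hc L hL1
  have hfgQ : Group.FG (X.Γ ⧸ N) := (quotCx X N L).fg
  have h3p : Fact (Nat.Prime 3) := ⟨Nat.prime_three⟩
  have hcx : ∀ Γ₁ : Subgroup (X.Γ ⧸ N), Γ₁.Normal → Γ₁.FiniteIndex →
      (∀ H : Subgroup (X.Γ ⧸ N), H ≤ Γ₁ → H.Normal → H.FiniteIndex →
        H.index ≤ C * finrank (ZMod 3) (HomR (ZMod 3) H)) →
      ∃ H : Subgroup (X.Γ ⧸ N), H ≤ Γ₁ ∧ H.FiniteIndex ∧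
        ∃ ψ : H →* FreeGroup (Fin 2), Function.Surjective ψ :=
    fun Γ₁ h1 h2 h3 => cx_large hcn hsc 3 (by norm_num) C hC Γ₁ h1 h2 h3
  have hbar : ∃ H : Subgroup (X.Γ ⧸ N), H ≤ H₀.map (QuotientGroup.mk' N) ∧ H.FiniteIndex ∧
      ∃ ψ : H →* FreeGroup (Fin 2), Function.Surjective ψ := by
    refine hcx (H₀.map (QuotientGroup.mk' N)) ?_ ?_ ?_
    · exact hn₀.map _ (QuotientGroup.mk'_surjective N)
    · refine ⟨?_⟩
      have h1 : (H₀.map (QuotientGroup.mk' N)).index ∣ H₀.index :=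
        Subgroup.index_map_dvd _ (QuotientGroup.mk'_surjective N)
      intro h0
      rw [h0, zero_dvd_iff] at h1
      exact hf₀.index_ne_zero h1
    · intro H hH hHn hHf
      have h1 : (H.comap (QuotientGroup.mk' N)).index = H.index :=
        Subgroup.index_comap_of_surjective H (QuotientGroup.mk'_surjective N)
      have h2 : (H.comap (QuotientGroup.mk' N)).FiniteIndex :=
        ⟨by rw [h1]; exact hHf.index_ne_zero⟩
      have h3 : H.comap (QuotientGroup.mk' N) ≤ H₀ := by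
        refine (Subgroup.comap_mono hH).trans ?_
        rw [Subgroup.comap_map_eq, QuotientGroup.ker_mk']
        exact sup_le le_rfl hNH
      have h4 := hrel _ h3 (hHn.comap _) h2
      rw [h1] at h4
      have hfgH : Group.FG H := Subgroup.fg_of_index_ne_zero H
      have hfinL : Module.Finite ℚ (HomQ H) := homQ_finite hfgH
      have h5 := quot_homQ N H hfinL (RelQ A (H.comap (QuotientGroup.mk' N)))
        (fun χ hχ => hχ.1) ?_
      · have h6 := homQ_le_homP hfgH 3 (by norm_num)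
        exact h4.trans (Nat.mul_le_mul_left C (h5.trans h6))
      · -- the homomorphisms vanish on `N`
        intro χ hχ
        have hNle : N ≤ H.comap (QuotientGroup.mk' N) := by
          intro x hx
          rw [Subgroup.mem_comap]
          have h6 : (QuotientGroup.mk' N) x = 1 := (QuotientGroup.eq_one_iff x).mpr hx
          rw [h6]
          exact H.one_mem
        let χ' : H.comap (QuotientGroup.mk' N) →* Multiplicative ℚ :=
          MonoidHom.mk' (fun h => Multiplicative.ofAdd (χ h)) (fun a b => by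
            rw [hχ.1 a b]
            rfl)
        let Z : Subgroup X.Γ := χ'.ker.map (H.comap (QuotientGroup.mk' N)).subtype
        have hZ : ∀ g (hg : g ∈ H.comap (QuotientGroup.mk' N)), g ∈ Z ↔ χ ⟨g, hg⟩ = 0 := by
          intro g hg
          constructor
          · rintro ⟨x, hx, rfl⟩
            have h7 : Multiplicative.ofAdd (χ x) = 1 := MonoidHom.mem_ker.mp hx
            exact ofAdd_eq_one.mp h7
          · intro h
            refine ⟨⟨g, hg⟩, ?_, rfl⟩
            exact MonoidHom.mem_ker.mpr (ofAdd_eq_one.mpr h)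
        have hNZ : N ≤ Z := by
          conv_lhs => rw [hN]
          rw [Subgroup.normalClosure, Subgroup.closure_le]
          intro g hg
          rw [Group.mem_conjugatesOfSet_iff] at hg
          obtain ⟨t, ht, htg⟩ := hg
          obtain ⟨γ, hγ⟩ := isConj_iff.1 htg
          have htN : t ∈ N := by
            rw [hN]
            exact Subgroup.subset_normalClosure ht
          have hgN : g ∈ N := by
            rw [← hγ]
            exact hNn.conj_mem t htN γ
          obtain ⟨i, hi⟩ := hTmem t ht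
          rw [SetLike.mem_coe, hZ g (hNle hgN)]
          refine hχ.2 i γ ⟨g, hNle hgN⟩ ?_
          have h9 : γ⁻¹ * g * γ = t := by
            rw [← hγ]
            group
          change γ⁻¹ * g * γ ∈ A i
          rw [h9]
          exact hi.2
        intro h hh
        exact (hZ h h.2).mp (hNZ hh)
  obtain ⟨H, hH, hHf, ψ, hψ⟩ := hbar
  have h1 : (H.comap (QuotientGroup.mk' N)).index = H.index :=
    Subgroup.index_comap_of_surjective H (QuotientGroup.mk'_surjective N)
  have h2 : (H.comap (QuotientGroup.mk' N)).FiniteIndex :=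
    ⟨by rw [h1]; exact hHf.index_ne_zero⟩
  have h3 : H.comap (QuotientGroup.mk' N) ≤ H₀ := by
    refine (Subgroup.comap_mono hH).trans ?_
    rw [Subgroup.comap_map_eq, QuotientGroup.ker_mk']
    exact sup_le le_rfl hNH
  let r : H.comap (QuotientGroup.mk' N) →* H :=
    { toFun := fun x => ⟨(QuotientGroup.mk' N) x, x.2⟩
      map_one' := by
        apply Subtype.ext
        exact map_one (QuotientGroup.mk' N)
      map_mul' := by
        intro a b
        apply Subtype.ext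
        exact map_mul (QuotientGroup.mk' N) (a : X.Γ) b }
  refine ⟨H.comap (QuotientGroup.mk' N), h2, ψ.comp r, hψ.comp ?_, ?_⟩
  · rintro ⟨x, hx⟩
    obtain ⟨g, rfl⟩ := QuotientGroup.mk_surjective x
    exact ⟨⟨g, hx⟩, rfl⟩
  · intro i g h hh
    have h4 : g⁻¹ * (h : X.Γ) * g ∈ H₀ := by
      have h5 := hn₀.conj_mem h (h3 h.2) g⁻¹
      rwa [inv_inv] at h5
    have h5 : g⁻¹ * (h : X.Γ) * g ∈ N := hAN i ⟨h4, hh⟩
    have h6 : (h : X.Γ) ∈ N := by
      have h7 := hNn.conj_mem _ h5 g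
      have h8 : g * (g⁻¹ * (h : X.Γ) * g) * g⁻¹ = h := by group
      rwa [h8] at h7
    have h7 : r h = 1 := by
      apply Subtype.ext
      exact (QuotientGroup.eq_one_iff (h : X.Γ)).mpr h6
    rw [MonoidHom.comp_apply, h7, map_one]

end Pool.Agent.ChU
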